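import Pool.Agent.KDT.StmtsP

/-!
Squad KDT, block Z, row EXT: two generic points of the same irreducible plane curve are conjugate
under the automorphisms of the algebraically closed field over the constants.
-/

set_option autoImplicit false

namespace Pool.Agent.KDT.Z.H92

open Polynomial Pool.Agent.KDT.Z

/-- The big field is algebraic over every subalgebra which contains a non constant element. -/
theorem alg_of_mem {k U : Type} [Field k] [Field U] [Algebra k U] (A : Subalgebra k U) (t : U)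
    (ht : t ∈ A) (h : Algebra.IsAlgebraic (IntermediateField.adjoin k {t}) U) :
    Algebra.IsAlgebraic A U := by
  open IntermediateField.algebraAdjoinAdjoin in
  have h1 : Algebra.IsAlgebraic (Algebra.adjoin k {t}) U :=
    (IsFractionRing.comap_isAlgebraic_iff (A := Algebra.adjoin k {t})
      (K := IntermediateField.adjoin k {t}) (C := U)).2 h
  have hle : Algebra.adjoin k {t} ≤ A := Algebra.adjoin_le (by simpa using ht)
  let : Algebra (Algebra.adjoin k {t}) A := (Subalgebra.inclusion hle).toAlgebra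
  have : IsScalarTower (Algebra.adjoin k {t}) A U := IsScalarTower.of_algebraMap_eq (fun x => rfl)
  exact h1.extendScalars (Subalgebra.inclusion_injective hle)

theorem ext (ird : IrdStatement) : ExtStatement := by
  intro k U _ _ _ f g env Φ s p s' p' hΦ hz hz' hn hn'
  obtain ⟨ird1, _⟩ := ird
  have := env.kc
  have := env.oc
  obtain ⟨ev, hev⟩ : ∃ ev : MvPolynomial (Fin 2) k →ₐ[k] U, ev = MvPolynomial.aeval ![s, p] :=
    ⟨_, rfl⟩
  obtain ⟨ev', hev'⟩ : ∃ ev : MvPolynomial (Fin 2) k →ₐ[k] U, ev = MvPolynomial.aeval ![s', p'] :=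
    ⟨_, rfl⟩
  have key : RingHom.ker ev = RingHom.ker ev' := by
    ext G
    rw [RingHom.mem_ker, RingHom.mem_ker]
    constructor
    · intro h
      rw [hev] at h
      obtain ⟨Q, rfl⟩ := ird1 k U s p Φ G hΦ hz hn h
      rw [map_mul]
      have : ev' Φ = 0 := by rw [hev']; exact hz'
      rw [this, zero_mul]
    · intro h
      rw [hev'] at h
      obtain ⟨Q, rfl⟩ := ird1 k U s' p' Φ G hΦ hz' hn' h
      rw [map_mul]
      have : ev Φ = 0 := by rw [hev]; exact hz
      rw [this, zero_mul]
  have es : ev (MvPolynomial.X 0) = s := by rw [hev]; simp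
  have ep : ev (MvPolynomial.X 1) = p := by rw [hev]; simp
  have es' : ev' (MvPolynomial.X 0) = s' := by rw [hev']; simp
  have ep' : ev' (MvPolynomial.X 1) = p' := by rw [hev']; simp
  -- the isomorphism of the ranges
  obtain ⟨e, he⟩ : ∃ e : ev.range ≃ₐ[k] ev'.range, ∀ G, e ⟨ev G, ⟨G, rfl⟩⟩ = ⟨ev' G, ⟨G, rfl⟩⟩ := by
    refine ⟨((Ideal.quotientKerEquivRange ev).symm.trans
      (Ideal.quotientEquivAlgOfEq k key)).trans (Ideal.quotientKerEquivRange ev'), ?_⟩
    intro G
    have h1 : (Ideal.quotientKerEquivRange ev).symm ⟨ev G, ⟨G, rfl⟩⟩ =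
        Ideal.Quotient.mk (RingHom.ker ev) G := by
      rw [AlgEquiv.symm_apply_eq]
      rfl
    rw [AlgEquiv.trans_apply, AlgEquiv.trans_apply, h1]
    rfl
  have alg : Algebra.IsAlgebraic ev.range U := by
    by_cases h : s ∈ (algebraMap k U).range
    · have hp : p ∉ (algebraMap k U).range := fun h' => hn ⟨h, h'⟩
      exact alg_of_mem _ p ⟨_, ep⟩ (env.td p hp)
    · exact alg_of_mem _ s ⟨_, es⟩ (env.td s h)
  have alg' : Algebra.IsAlgebraic ev'.range U := by
    by_cases h : s' ∈ (algebraMap k U).range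
    · have hp : p' ∉ (algebraMap k U).range := fun h' => hn' ⟨h, h'⟩
      exact alg_of_mem _ p' ⟨_, ep'⟩ (env.td p' hp)
    · exact alg_of_mem _ s' ⟨_, es'⟩ (env.td s' h)
  have : IsAlgClosure ev.range U := ⟨env.oc, alg⟩
  have : IsAlgClosure ev'.range U := ⟨env.oc, alg'⟩
  obtain ⟨τ, hτ⟩ : ∃ τ : U ≃+* U, ∀ x : ev.range, τ (algebraMap ev.range U x) =
      algebraMap ev'.range U (e x) :=
    ⟨IsAlgClosure.equivOfEquiv (R := ev'.range) (S := ev.range) U U e.toRingEquiv,
      fun x => IsAlgClosure.equivOfEquiv_algebraMap (R := ev'.range) (S := ev.range) U U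
        e.toRingEquiv x⟩
  have hτ2 : ∀ G, τ (ev G) = ev' G := by
    intro G
    have := hτ ⟨ev G, ⟨G, rfl⟩⟩
    rw [he] at this
    exact this
  refine ⟨AlgEquiv.ofRingEquiv (f := τ) (fun c => ?_), ?_, ?_⟩
  · have := hτ2 (algebraMap k _ c)
    rw [AlgHom.commutes, AlgHom.commutes] at this
    exact this
  · show τ s = s'
    rw [← es, hτ2, es']
  · show τ p = p'
    rw [← ep, hτ2, ep']

end Pool.Agent.KDT.Z.H92
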